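import Mathlib

set_option autoImplicit false

/-! Words in the free group on two generators: the geometric facts behind the asymmetry. -/

namespace Pool.Agent.R216.CVP

abbrev F2 := FreeGroup (Fin 2)

/-- prepending a letter which does not cancel -/
lemma toWord_cons (x : Fin 2) (β : Bool) (g : F2) (h : g.toWord.head? ≠ some (x, !β)) :
    (FreeGroup.mk [(x, β)] * g).toWord = (x, β) :: g.toWord := by
  rw [FreeGroup.toWord_mul, FreeGroup.toWord_mk]
  have h1 : FreeGroup.reduce [(x, β)] = [(x, β)] := by simp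
  rw [h1, List.singleton_append, FreeGroup.reduce.cons, FreeGroup.reduce_toWord]
  cases hg : g.toWord with
  | nil => rfl
  | cons hd tl =>
    have : ¬ (x = hd.1 ∧ β = !hd.2) := by
      rintro ⟨h2, h3⟩
      apply h
      rw [hg, List.head?_cons]
      congr 1
      rw [h2, h3]
      simp
    simp only [this, if_false]

def A : F2 := FreeGroup.of 0
def B : F2 := FreeGroup.of 1

lemma toWord_pow_mul (x : Fin 2) (k : ℕ) (g : F2) (h : g.toWord.head? ≠ some (x, false)) :
    (FreeGroup.of x ^ k * g).toWord = List.replicate k (x, true) ++ g.toWord := by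
  induction k with
  | zero => simp
  | succ k ih =>
    rw [pow_succ', mul_assoc]
    have h1 : (FreeGroup.of x ^ k * g).toWord.head? ≠ some (x, !true) := by
      rw [ih]
      cases k with
      | zero => simpa using h
      | succ k => simp [List.replicate_succ]
    have := toWord_cons x true _ h1
    rw [show FreeGroup.of x = FreeGroup.mk [(x, true)] from rfl] at *
    rw [this, ih]
    simp [List.replicate_succ]

/-- words starting with `b ^ i` followed by the letter `a` (`β = true`) or `a⁻¹` -/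
def Pre (i : ℕ) (β : Bool) (g : F2) : Prop :=
  ∃ l, g.toWord = List.replicate i ((1 : Fin 2), true) ++ ((0 : Fin 2), β) :: l

lemma list_inj {i j : ℕ} {β γ : Bool} {l m : List (Fin 2 × Bool)}
    (h : List.replicate i ((1 : Fin 2), true) ++ ((0 : Fin 2), β) :: l
      = List.replicate j ((1 : Fin 2), true) ++ ((0 : Fin 2), γ) :: m) : i = j ∧ β = γ := by
  induction i generalizing j with
  | zero =>
    cases j with
    | zero => simp at h; exact ⟨rfl, h.1⟩
    | succ j => simp [List.replicate_succ] at h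
  | succ i ih =>
    cases j with
    | zero => simp [List.replicate_succ] at h
    | succ j =>
      simp only [List.replicate_succ, List.cons_append, List.cons.injEq, true_and] at h
      obtain ⟨h7, h8⟩ := ih h
      exact ⟨by omega, h8⟩

lemma Pre_inj {i j : ℕ} {β γ : Bool} {g : F2} (h1 : Pre i β g) (h2 : Pre j γ g) :
    i = j ∧ β = γ := by
  obtain ⟨l, hl⟩ := h1
  obtain ⟨m, hm⟩ := h2
  rw [hl] at hm
  exact list_inj hm

/-- `s i = b ^ (i+1) a b ^ -(i+1)` -/
def s (i : ℕ) : F2 := B ^ (i + 1) * A * (B ^ (i + 1))⁻¹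

lemma s_mul {i : ℕ} {g : F2} (h : ¬ Pre (i + 1) false g) : Pre (i + 1) true (s i * g) := by
  have h1 : ((B ^ (i + 1))⁻¹ * g).toWord.head? ≠ some (0, false) := by
    intro h2
    apply h
    obtain ⟨l, hl⟩ : ∃ l, ((B ^ (i + 1))⁻¹ * g).toWord = (0, false) :: l := by
      cases hc : ((B ^ (i + 1))⁻¹ * g).toWord with
      | nil => rw [hc] at h2; simp at h2
      | cons hd tl =>
        rw [hc, List.head?_cons, Option.some.injEq] at h2
        exact ⟨tl, by rw [h2]⟩
    refine ⟨l, ?_⟩
    have h3 := toWord_pow_mul 1 (i + 1) ((B ^ (i + 1))⁻¹ * g) (by rw [hl]; simp)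
    rw [show FreeGroup.of (1 : Fin 2) = B from rfl, mul_inv_cancel_left] at h3
    rw [h3, hl]
  have h2 := toWord_cons 0 true _ h1
  refine ⟨((B ^ (i + 1))⁻¹ * g).toWord, ?_⟩
  rw [s, mul_assoc, mul_assoc]
  have h3 : (A * ((B ^ (i + 1))⁻¹ * g)).toWord = (0, true) :: ((B ^ (i + 1))⁻¹ * g).toWord := h2
  have h4 := toWord_pow_mul 1 (i + 1) (A * ((B ^ (i + 1))⁻¹ * g)) (by rw [h3]; simp)
  rw [show FreeGroup.of (1 : Fin 2) = B from rfl] at h4
  rw [h4, h3]

lemma s_inv_mul {i : ℕ} {g : F2} (h : ¬ Pre (i + 1) true g) :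
    Pre (i + 1) false ((s i)⁻¹ * g) := by
  have h1 : ((B ^ (i + 1))⁻¹ * g).toWord.head? ≠ some (0, true) := by
    intro h2
    apply h
    obtain ⟨l, hl⟩ : ∃ l, ((B ^ (i + 1))⁻¹ * g).toWord = (0, true) :: l := by
      cases hc : ((B ^ (i + 1))⁻¹ * g).toWord with
      | nil => rw [hc] at h2; simp at h2
      | cons hd tl =>
        rw [hc, List.head?_cons, Option.some.injEq] at h2
        exact ⟨tl, by rw [h2]⟩
    refine ⟨l, ?_⟩
    have h3 := toWord_pow_mul 1 (i + 1) ((B ^ (i + 1))⁻¹ * g) (by rw [hl]; simp)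
    rw [show FreeGroup.of (1 : Fin 2) = B from rfl, mul_inv_cancel_left] at h3
    rw [h3, hl]
  have h2 := toWord_cons 0 false _ h1
  refine ⟨((B ^ (i + 1))⁻¹ * g).toWord, ?_⟩
  have h0 : (s i)⁻¹ * g = B ^ (i + 1) * (A⁻¹ * ((B ^ (i + 1))⁻¹ * g)) := by
    rw [s]; group
  rw [h0]
  have h3 : (A⁻¹ * ((B ^ (i + 1))⁻¹ * g)).toWord
      = (0, false) :: ((B ^ (i + 1))⁻¹ * g).toWord := by
    rw [← h2]; rfl
  have h4 := toWord_pow_mul 1 (i + 1) (A⁻¹ * ((B ^ (i + 1))⁻¹ * g)) (by rw [h3]; simp)
  rw [show FreeGroup.of (1 : Fin 2) = B from rfl] at h4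
  rw [h4, h3]

lemma list_inj2 {i j : ℕ} {l m : List (Fin 2 × Bool)}
    (h : List.replicate i ((0 : Fin 2), true) ++ ((1 : Fin 2), true) :: l
      = List.replicate j ((0 : Fin 2), true) ++ ((1 : Fin 2), true) :: m) : i = j := by
  induction i generalizing j with
  | zero =>
    cases j with
    | zero => rfl
    | succ j => simp [List.replicate_succ] at h
  | succ i ih =>
    cases j with
    | zero => simp [List.replicate_succ] at h
    | succ j =>
      simp only [List.replicate_succ, List.cons_append, List.cons.injEq, true_and] at h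
      have := ih h
      omega

/-- the key injectivity -/
lemma key_inj {k k' i i' : ℕ} {g g' : F2} (h : ¬ Pre (i + 1) false g)
    (h' : ¬ Pre (i' + 1) false g') (e : A ^ k * (s i * g) = A ^ k' * (s i' * g')) :
    k = k' ∧ i = i' ∧ g = g' := by
  obtain ⟨l, hl⟩ := s_mul h
  obtain ⟨l', hl'⟩ := s_mul h'
  have h1 := toWord_pow_mul 0 k (s i * g) (by rw [hl]; simp [List.replicate_succ])
  have h2 := toWord_pow_mul 0 k' (s i' * g') (by rw [hl']; simp [List.replicate_succ])
  rw [show FreeGroup.of (0 : Fin 2) = A from rfl] at h1 h2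
  rw [e, h2, hl, hl'] at h1
  have hk : k = k' := by
    rw [List.replicate_succ, List.replicate_succ, List.cons_append, List.cons_append] at h1
    exact (list_inj2 h1).symm
  subst hk
  have e1 : s i * g = s i' * g' := mul_left_cancel e
  have h3 : i = i' := by
    have := Pre_inj (s_mul h) (e1 ▸ s_mul h')
    omega
  subst h3
  exact ⟨rfl, rfl, mul_left_cancel e1⟩

lemma zpow_not_Pre (i : ℕ) (β : Bool) (m : ℤ) : ¬ Pre (i + 1) β (A ^ m) := by
  rintro ⟨l, hl⟩
  have h1 : (A ^ m).toWord.head? = some (1, true) := by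
    rw [hl]; simp [List.replicate_succ]
  rcases Int.le_total 0 m with h | h
  · obtain ⟨n, rfl⟩ := Int.eq_ofNat_of_zero_le h
    rw [zpow_natCast, A, FreeGroup.toWord_of_pow] at h1
    cases n with
    | zero => simp at h1
    | succ n => simp [List.replicate_succ] at h1
  · obtain ⟨n, hn⟩ := Int.eq_ofNat_of_zero_le (show 0 ≤ -m by omega)
    have : m = -(n : ℤ) := by omega
    rw [this, zpow_neg, zpow_natCast, A, FreeGroup.toWord_inv, FreeGroup.toWord_of_pow] at h1
    cases n with
    | zero => simp [FreeGroup.invRev] at h1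
    | succ n =>
      simp [FreeGroup.invRev, List.replicate_succ'] at h1

lemma zpow_inj {m m' : ℤ} (h : A ^ m = A ^ m') : m = m' := by
  have h1 : A ^ (m - m') = 1 := by rw [zpow_sub, h, mul_inv_cancel]
  have key : ∀ n : ℕ, A ^ n = 1 → n = 0 := by
    intro n hn
    have h2 := FreeGroup.toWord_of_pow (0 : Fin 2) n
    rw [show FreeGroup.of (0 : Fin 2) = A from rfl, hn] at h2
    have h3 := congrArg List.length h2
    simp at h3
    omega
  rcases Int.le_total 0 (m - m') with h | h
  · obtain ⟨n, hn⟩ := Int.eq_ofNat_of_zero_le h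
    rw [hn] at h1
    have := key n (by simpa using h1)
    omega
  · obtain ⟨n, hn⟩ := Int.eq_ofNat_of_zero_le (show 0 ≤ -(m - m') by omega)
    have h3 : A ^ (n : ℤ) = 1 := by rw [← hn, zpow_neg, h1, inv_one]
    have := key n (by simpa using h3)
    omega

/-- the points `(s i)⁻¹ a ^ m` are distinct -/
lemma low_inj {i i' : ℕ} {m m' : ℤ} (e : (s i)⁻¹ * A ^ m = (s i')⁻¹ * A ^ m') :
    i = i' ∧ m = m' := by
  have h1 := s_inv_mul (zpow_not_Pre i true m)
  have h2 := s_inv_mul (zpow_not_Pre i' true m')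
  rw [e] at h1
  have h3 : i = i' := by have := Pre_inj h1 h2; omega
  subst h3
  exact ⟨rfl, zpow_inj (mul_left_cancel e)⟩

end Pool.Agent.R216.CVP
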