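import Mathlib
import Pool.Agent.R216.CVP.Word

set_option autoImplicit false

/-! Norm estimates for convolution by indicator functions of products. -/

namespace Pool.Agent.R216.CVP

open scoped ENNReal
open Finset

variable {G : Type} [Group G]

lemma exists_W (φ : F2 →* G) (hφ : Function.Injective φ) :
    ∃ W : G → F2, ∀ g x, W (φ g * x) = g * W x := by
  classical
  let S : Setoid G :=
    { r := fun x y => ∃ g : F2, φ g * x = y
      iseqv := ⟨fun x => ⟨1, by simp⟩, fun {x y} ⟨g, hg⟩ => ⟨g⁻¹, by rw [← hg]; simp⟩,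
        fun {x y z} ⟨g, hg⟩ ⟨h, hh⟩ => ⟨h * g, by rw [← hh, ← hg]; simp [mul_assoc]⟩⟩ }
  have hx : ∀ x : G, ∃ g : F2, φ g * (Quotient.out (Quotient.mk S x)) = x := fun x =>
    Quotient.mk_out (s := S) x
  choose W hW using hx
  refine ⟨W, fun g x => ?_⟩
  have h1 : Quotient.mk S (φ g * x) = Quotient.mk S x :=
    (Quotient.sound (s := S) (show ∃ h : F2, φ h * x = φ g * x from ⟨g, rfl⟩)).symm
  have h2 := hW (φ g * x)
  rw [h1] at h2
  have h3 := hW x
  apply hφ
  rw [map_mul]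
  have h4 : φ (W (φ g * x)) * Quotient.out (Quotient.mk S x)
      = (φ g * φ (W x)) * Quotient.out (Quotient.mk S x) := by
    rw [h2, mul_assoc, h3]
  exact mul_right_cancel h4

lemma split_add (P : Prop) [Decidable P] [Decidable (¬ P)] (c : ℝ≥0∞) :
    c = (if ¬ P then c else 0) + (if P then c else 0) := by
  by_cases h : P <;> simp [h]

lemma ite_rpow_eq (P : Prop) [Decidable P] (c : ℝ≥0∞) {p : ℝ} (hp : 0 < p) :
    (if P then c else 0) ^ p = if P then c ^ p else 0 := by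
  by_cases h : P <;> simp [h, ENNReal.zero_rpow_of_pos hp]

lemma ite_rpow_le (P : Prop) [Decidable P] (c : ℝ≥0∞) {p : ℝ} (hp : 0 < p) :
    (if P then c else 0) ^ p ≤ c ^ p := by
  by_cases h : P <;> simp [h, ENNReal.zero_rpow_of_pos hp]

/-- sum with at most one non-zero term -/
lemma sum_rpow_single {ι : Type} (I : Finset ι) (f : ι → ℝ≥0∞) {p : ℝ} (hp : 0 < p)
    (h : ∀ i ∈ I, ∀ j ∈ I, f i ≠ 0 → f j ≠ 0 → i = j) :
    (∑ i ∈ I, f i) ^ p = ∑ i ∈ I, f i ^ p := by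
  classical
  by_cases h0 : ∃ i ∈ I, f i ≠ 0
  · obtain ⟨i, hi, hfi⟩ := h0
    have hz : ∀ j ∈ I, j ≠ i → f j = 0 := by
      intro j hj hji
      by_contra hne
      exact hji (h j hj i hi hne hfi)
    rw [Finset.sum_eq_single_of_mem i hi hz, Finset.sum_eq_single_of_mem i hi]
    intro j hj hji
    rw [hz j hj hji, ENNReal.zero_rpow_of_pos hp]
  · push Not at h0
    rw [Finset.sum_eq_zero h0, ENNReal.zero_rpow_of_pos hp, Finset.sum_eq_zero]
    intro i hi
    rw [h0 i hi, ENNReal.zero_rpow_of_pos hp]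

lemma tsum_trans (g : G) (u : G → ℝ≥0∞) : ∑' x, u (g * x) = ∑' x, u x :=
  (Equiv.mulLeft g).tsum_eq u

omit [Group G] in
lemma tsum_sum {ι : Type} (I : Finset ι) (f : ι → G → ℝ≥0∞) :
    ∑' x, ∑ i ∈ I, f i x = ∑ i ∈ I, ∑' x, f i x := by
  classical
  induction I using Finset.induction_on with
  | empty => simp
  | insert a s ha ih =>
    simp_rw [Finset.sum_insert ha]
    rw [ENNReal.tsum_add, ih]

/-- the sum over `i ∈ I` of an indicator is at most one -/
lemma sum_ind_le {ι : Type} (I : Finset ι) (P : ι → Prop) [DecidablePred P] (c : ℝ≥0∞)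
    (h : ∀ i ∈ I, ∀ j ∈ I, P i → P j → i = j) : ∑ i ∈ I, (if P i then c else 0) ≤ c := by
  classical
  by_cases h0 : ∃ i ∈ I, P i
  · obtain ⟨i, hi, hP⟩ := h0
    rw [Finset.sum_eq_single_of_mem i hi]
    · rw [if_pos hP]
    · intro j hj hji
      rw [if_neg]
      exact fun hPj => hji (h j hj i hi hPj hP)
  · push Not at h0
    rw [Finset.sum_eq_zero]
    · exact zero_le
    · intro i hi
      rw [if_neg (h0 i hi)]

open Classical in
/-- first upper bound -/
lemma UB1 (φ : F2 →* G) (hφ : Function.Injective φ) (L N : ℕ) {p : ℝ} (hp : 1 < p)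
    (u : G → ℝ≥0∞) :
    ∑' x, (∑ j ∈ range L ×ˢ range N, u ((φ (A ^ j.1 * s j.2))⁻¹ * x)) ^ p
      ≤ 2 ^ p * ((L : ℝ≥0∞) * N + (L : ℝ≥0∞) ^ p * (N : ℝ≥0∞) ^ (p - 1)) * ∑' x, u x ^ p := by
  obtain ⟨W, hW⟩ := exists_W φ hφ
  have hp0 : 0 < p := by linarith
  set I := range L ×ˢ range N
  let a : G → ℝ≥0∞ := fun x => ∑ j ∈ I,
    if ¬ Pre (j.2 + 1) false (W ((φ (A ^ j.1 * s j.2))⁻¹ * x)) then
      u ((φ (A ^ j.1 * s j.2))⁻¹ * x) else 0
  let b : G → ℝ≥0∞ := fun x => ∑ j ∈ I,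
    if Pre (j.2 + 1) false (W ((φ (A ^ j.1 * s j.2))⁻¹ * x)) then
      u ((φ (A ^ j.1 * s j.2))⁻¹ * x) else 0
  have hsplit : ∀ x, (∑ j ∈ I, u ((φ (A ^ j.1 * s j.2))⁻¹ * x)) = a x + b x := by
    intro x
    simp only [a, b]
    rw [← Finset.sum_add_distrib]
    refine Finset.sum_congr rfl fun j _ => ?_
    exact split_add _ _
  have ha : ∑' x, a x ^ p ≤ ((L : ℝ≥0∞) * N) * ∑' x, u x ^ p := by
    have h1 : ∀ x, a x ^ p ≤ ∑ j ∈ I, u ((φ (A ^ j.1 * s j.2))⁻¹ * x) ^ p := by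
      intro x
      simp only [a]
      rw [sum_rpow_single _ _ hp0]
      · refine Finset.sum_le_sum fun j _ => ?_
        exact ite_rpow_le _ _ hp0
      · intro j _ j' _ h h'
        have e1 : ¬ Pre (j.2 + 1) false (W ((φ (A ^ j.1 * s j.2))⁻¹ * x)) := by
          intro hh; exact h (if_neg (not_not.2 hh))
        have e2 : ¬ Pre (j'.2 + 1) false (W ((φ (A ^ j'.1 * s j'.2))⁻¹ * x)) := by
          intro hh; exact h' (if_neg (not_not.2 hh))
        have e3 : A ^ j.1 * (s j.2 * W ((φ (A ^ j.1 * s j.2))⁻¹ * x)) = W x := by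
          rw [← mul_assoc, ← hW, mul_inv_cancel_left]
        have e4 : A ^ j'.1 * (s j'.2 * W ((φ (A ^ j'.1 * s j'.2))⁻¹ * x)) = W x := by
          rw [← mul_assoc, ← hW, mul_inv_cancel_left]
        obtain ⟨h5, h6, -⟩ := key_inj e1 e2 (e3.trans e4.symm)
        exact Prod.ext h5 h6
    calc ∑' x, a x ^ p ≤ ∑' x, ∑ j ∈ I, u ((φ (A ^ j.1 * s j.2))⁻¹ * x) ^ p :=
          ENNReal.tsum_le_tsum h1
      _ = ∑ j ∈ I, ∑' x, u ((φ (A ^ j.1 * s j.2))⁻¹ * x) ^ p := tsum_sum _ _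
      _ = ∑ _j ∈ I, ∑' x, u x ^ p := by
          refine Finset.sum_congr rfl fun j _ => ?_
          exact tsum_trans _ (fun x => u x ^ p)
      _ = ((L : ℝ≥0∞) * N) * ∑' x, u x ^ p := by
          rw [Finset.sum_const, nsmul_eq_mul]
          simp [I, Finset.card_product]
  have hb : ∑' x, b x ^ p ≤ ((L : ℝ≥0∞) ^ p * (N : ℝ≥0∞) ^ (p - 1)) * ∑' x, u x ^ p := by
    let η : G → ℝ≥0∞ := fun z => ∑ i ∈ range N,
      if Pre (i + 1) false (W ((φ (s i))⁻¹ * z)) then u ((φ (s i))⁻¹ * z) else 0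
    have h1 : ∀ x, b x = ∑ k ∈ range L, η ((φ (A ^ k))⁻¹ * x) := by
      intro x
      simp only [b, η, I]
      rw [Finset.sum_product]
      refine Finset.sum_congr rfl fun k _ => Finset.sum_congr rfl fun i _ => ?_
      simp only [map_mul, mul_inv_rev, mul_assoc]
    have h2 : ∑' z, η z ^ p ≤ (N : ℝ≥0∞) ^ (p - 1) * ∑' x, u x ^ p := by
      calc ∑' z, η z ^ p ≤ ∑' z, (N : ℝ≥0∞) ^ (p - 1) * ∑ i ∈ range N,
            (if Pre (i + 1) false (W ((φ (s i))⁻¹ * z)) then u ((φ (s i))⁻¹ * z) ^ p else 0) := by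
            refine ENNReal.tsum_le_tsum fun z => ?_
            refine (ENNReal.rpow_sum_le_const_mul_sum_rpow _ _ hp.le).trans ?_
            rw [Finset.card_range]
            refine mul_le_mul' le_rfl (Finset.sum_le_sum fun i _ => ?_)
            exact (ite_rpow_eq _ _ hp0).le
        _ = (N : ℝ≥0∞) ^ (p - 1) * ∑ i ∈ range N, ∑' z,
            (if Pre (i + 1) false (W ((φ (s i))⁻¹ * z)) then u ((φ (s i))⁻¹ * z) ^ p else 0) := by
            rw [ENNReal.tsum_mul_left, tsum_sum]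
        _ = (N : ℝ≥0∞) ^ (p - 1) * ∑ i ∈ range N, ∑' y,
            (if Pre (i + 1) false (W y) then u y ^ p else 0) := by
            congr 1
            refine Finset.sum_congr rfl fun i _ => ?_
            exact tsum_trans _ (fun y => if Pre (i + 1) false (W y) then u y ^ p else 0)
        _ = (N : ℝ≥0∞) ^ (p - 1) * ∑' y, ∑ i ∈ range N,
            (if Pre (i + 1) false (W y) then u y ^ p else 0) := by
            rw [tsum_sum]
        _ ≤ (N : ℝ≥0∞) ^ (p - 1) * ∑' x, u x ^ p := by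
            refine mul_le_mul' le_rfl (ENNReal.tsum_le_tsum fun y => ?_)
            refine sum_ind_le (range N) (fun i => Pre (i + 1) false (W y)) _ ?_
            intro i _ j _ hi hj
            have := (Pre_inj hi hj).1
            omega
    calc ∑' x, b x ^ p ≤ ∑' x, (L : ℝ≥0∞) ^ (p - 1) * ∑ k ∈ range L, η ((φ (A ^ k))⁻¹ * x) ^ p := by
          refine ENNReal.tsum_le_tsum fun x => ?_
          rw [h1]
          refine (ENNReal.rpow_sum_le_const_mul_sum_rpow _ _ hp.le).trans ?_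
          rw [Finset.card_range]
      _ = (L : ℝ≥0∞) ^ (p - 1) * ∑ k ∈ range L, ∑' x, η ((φ (A ^ k))⁻¹ * x) ^ p := by
          rw [ENNReal.tsum_mul_left, tsum_sum]
      _ = (L : ℝ≥0∞) ^ (p - 1) * (L * ∑' z, η z ^ p) := by
          congr 1
          rw [Finset.sum_congr rfl (fun k _ => tsum_trans (φ (A ^ k))⁻¹ (fun x => η x ^ p)),
            Finset.sum_const, Finset.card_range, nsmul_eq_mul]
      _ ≤ (L : ℝ≥0∞) ^ (p - 1) * (L * ((N : ℝ≥0∞) ^ (p - 1) * ∑' x, u x ^ p)) := by gcongr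
      _ = ((L : ℝ≥0∞) ^ p * (N : ℝ≥0∞) ^ (p - 1)) * ∑' x, u x ^ p := by
          rcases Nat.eq_zero_or_pos L with hL | hL
          · subst hL; simp [ENNReal.zero_rpow_of_pos hp0]
          · have hL0 : (L : ℝ≥0∞) ≠ 0 := by positivity
            have : (L : ℝ≥0∞) ^ p = (L : ℝ≥0∞) ^ (p - 1) * L := by
              conv_lhs => rw [show p = (p - 1) + 1 by ring]
              rw [ENNReal.rpow_add _ _ hL0 (by simp), ENNReal.rpow_one]
            rw [this]; ring
  calc ∑' x, (∑ j ∈ I, u ((φ (A ^ j.1 * s j.2))⁻¹ * x)) ^ p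
      ≤ ∑' x, 2 ^ p * (a x ^ p + b x ^ p) := by
        refine ENNReal.tsum_le_tsum fun x => ?_
        rw [hsplit]
        refine (ENNReal.rpow_add_le_mul_rpow_add_rpow _ _ hp.le).trans ?_
        refine mul_le_mul' ?_ le_rfl
        exact ENNReal.rpow_le_rpow_of_exponent_le (by norm_num) (by linarith)
    _ = 2 ^ p * (∑' x, a x ^ p + ∑' x, b x ^ p) := by
        rw [ENNReal.tsum_mul_left, ENNReal.tsum_add]
    _ ≤ 2 ^ p * (((L : ℝ≥0∞) * N) * ∑' x, u x ^ p
          + ((L : ℝ≥0∞) ^ p * (N : ℝ≥0∞) ^ (p - 1)) * ∑' x, u x ^ p) := by gcongr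
    _ = _ := by ring

open Classical in
/-- second upper bound -/
lemma UB2 (φ : F2 →* G) (hφ : Function.Injective φ) (L N : ℕ) {p : ℝ} (hp : 1 < p)
    (u : G → ℝ≥0∞) :
    ∑' x, (∑ j ∈ range L ×ˢ range N, u (φ (A ^ j.1 * s j.2) * x)) ^ p
      ≤ 2 ^ p * (((L : ℝ≥0∞) * N) ^ (p - 1) + (L : ℝ≥0∞) ^ p * N) * ∑' x, u x ^ p := by
  obtain ⟨W, hW⟩ := exists_W φ hφ
  have hp0 : 0 < p := by linarith
  set I := range L ×ˢ range N
  let a : G → ℝ≥0∞ := fun x => ∑ j ∈ I,
    if ¬ Pre (j.2 + 1) false (W x) then u (φ (A ^ j.1 * s j.2) * x) else 0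
  let b : G → ℝ≥0∞ := fun x => ∑ j ∈ I,
    if Pre (j.2 + 1) false (W x) then u (φ (A ^ j.1 * s j.2) * x) else 0
  have hsplit : ∀ x, (∑ j ∈ I, u (φ (A ^ j.1 * s j.2) * x)) = a x + b x := by
    intro x
    simp only [a, b]
    rw [← Finset.sum_add_distrib]
    refine Finset.sum_congr rfl fun j _ => ?_
    exact split_add _ _
  have ha : ∑' x, a x ^ p ≤ ((L : ℝ≥0∞) * N) ^ (p - 1) * ∑' x, u x ^ p := by
    calc ∑' x, a x ^ p ≤ ∑' x, ((L : ℝ≥0∞) * N) ^ (p - 1) * ∑ j ∈ I,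
          (if ¬ Pre (j.2 + 1) false (W x) then u (φ (A ^ j.1 * s j.2) * x) ^ p else 0) := by
          refine ENNReal.tsum_le_tsum fun x => ?_
          refine (ENNReal.rpow_sum_le_const_mul_sum_rpow _ _ hp.le).trans ?_
          have : (I.card : ℝ≥0∞) = (L : ℝ≥0∞) * N := by simp [I, Finset.card_product]
          rw [this]
          refine mul_le_mul' le_rfl (Finset.sum_le_sum fun i _ => ?_)
          exact (ite_rpow_eq _ _ hp0).le
      _ = ((L : ℝ≥0∞) * N) ^ (p - 1) * ∑ j ∈ I, ∑' x,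
          (if ¬ Pre (j.2 + 1) false (W x) then u (φ (A ^ j.1 * s j.2) * x) ^ p else 0) := by
          rw [ENNReal.tsum_mul_left, tsum_sum]
      _ = ((L : ℝ≥0∞) * N) ^ (p - 1) * ∑ j ∈ I, ∑' y,
          (if ¬ Pre (j.2 + 1) false (W ((φ (A ^ j.1 * s j.2))⁻¹ * y)) then u y ^ p else 0) := by
          congr 1
          refine Finset.sum_congr rfl fun j _ => ?_
          rw [← tsum_trans (φ (A ^ j.1 * s j.2)) (fun y =>
            if ¬ Pre (j.2 + 1) false (W ((φ (A ^ j.1 * s j.2))⁻¹ * y)) then u y ^ p else 0)]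
          simp only [inv_mul_cancel_left]
      _ = ((L : ℝ≥0∞) * N) ^ (p - 1) * ∑' y, ∑ j ∈ I,
          (if ¬ Pre (j.2 + 1) false (W ((φ (A ^ j.1 * s j.2))⁻¹ * y)) then u y ^ p else 0) := by
          rw [tsum_sum]
      _ ≤ ((L : ℝ≥0∞) * N) ^ (p - 1) * ∑' x, u x ^ p := by
          refine mul_le_mul' le_rfl (ENNReal.tsum_le_tsum fun y => ?_)
          refine sum_ind_le I
            (fun j => ¬ Pre (j.2 + 1) false (W ((φ (A ^ j.1 * s j.2))⁻¹ * y))) _ ?_
          intro j _ j' _ e1 e2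
          have e3 : A ^ j.1 * (s j.2 * W ((φ (A ^ j.1 * s j.2))⁻¹ * y)) = W y := by
            rw [← mul_assoc, ← hW, mul_inv_cancel_left]
          have e4 : A ^ j'.1 * (s j'.2 * W ((φ (A ^ j'.1 * s j'.2))⁻¹ * y)) = W y := by
            rw [← mul_assoc, ← hW, mul_inv_cancel_left]
          obtain ⟨h5, h6, -⟩ := key_inj e1 e2 (e3.trans e4.symm)
          exact Prod.ext h5 h6
  have hb : ∑' x, b x ^ p ≤ ((L : ℝ≥0∞) ^ p * N) * ∑' x, u x ^ p := by
    have h1 : ∀ x, b x = ∑ i ∈ range N, if Pre (i + 1) false (W x) then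
        ∑ k ∈ range L, u (φ (A ^ k * s i) * x) else 0 := by
      intro x
      simp only [b, I]
      rw [Finset.sum_product, Finset.sum_comm]
      refine Finset.sum_congr rfl fun i _ => ?_
      split_ifs <;> simp
    have h2 : ∀ x, b x ^ p ≤ ∑ i ∈ range N, (L : ℝ≥0∞) ^ (p - 1) *
        ∑ k ∈ range L, u (φ (A ^ k * s i) * x) ^ p := by
      intro x
      rw [h1, sum_rpow_single _ _ hp0]
      · refine Finset.sum_le_sum fun i _ => ?_
        split_ifs
        · refine (ENNReal.rpow_sum_le_const_mul_sum_rpow _ _ hp.le).trans ?_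
          rw [Finset.card_range]
        · rw [ENNReal.zero_rpow_of_pos hp0]; exact zero_le
      · intro i _ j _ hi hj
        have e1 : Pre (i + 1) false (W x) := by
          by_contra hh; exact hi (if_neg hh)
        have e2 : Pre (j + 1) false (W x) := by
          by_contra hh; exact hj (if_neg hh)
        have := (Pre_inj e1 e2).1
        omega
    calc ∑' x, b x ^ p ≤ ∑' x, ∑ i ∈ range N, (L : ℝ≥0∞) ^ (p - 1) *
        ∑ k ∈ range L, u (φ (A ^ k * s i) * x) ^ p := ENNReal.tsum_le_tsum h2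
      _ = ∑ i ∈ range N, (L : ℝ≥0∞) ^ (p - 1) * ∑ k ∈ range L, ∑' x, u x ^ p := by
          rw [tsum_sum]
          refine Finset.sum_congr rfl fun i _ => ?_
          rw [ENNReal.tsum_mul_left, tsum_sum]
          congr 1
          refine Finset.sum_congr rfl fun k _ => ?_
          exact tsum_trans _ (fun x => u x ^ p)
      _ = N * ((L : ℝ≥0∞) ^ (p - 1) * (L * ∑' x, u x ^ p)) := by
          simp [Finset.sum_const, nsmul_eq_mul]
      _ = ((L : ℝ≥0∞) ^ p * N) * ∑' x, u x ^ p := by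
          rcases Nat.eq_zero_or_pos L with hL | hL
          · subst hL; simp [ENNReal.zero_rpow_of_pos hp0]
          · have hL0 : (L : ℝ≥0∞) ≠ 0 := by positivity
            have : (L : ℝ≥0∞) ^ p = (L : ℝ≥0∞) ^ (p - 1) * L := by
              conv_lhs => rw [show p = (p - 1) + 1 by ring]
              rw [ENNReal.rpow_add _ _ hL0 (by simp), ENNReal.rpow_one]
            rw [this]; ring
  calc ∑' x, (∑ j ∈ I, u (φ (A ^ j.1 * s j.2) * x)) ^ p
      ≤ ∑' x, 2 ^ p * (a x ^ p + b x ^ p) := by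
        refine ENNReal.tsum_le_tsum fun x => ?_
        rw [hsplit]
        refine (ENNReal.rpow_add_le_mul_rpow_add_rpow _ _ hp.le).trans ?_
        refine mul_le_mul' ?_ le_rfl
        exact ENNReal.rpow_le_rpow_of_exponent_le (by norm_num) (by linarith)
    _ = 2 ^ p * (∑' x, a x ^ p + ∑' x, b x ^ p) := by
        rw [ENNReal.tsum_mul_left, ENNReal.tsum_add]
    _ ≤ 2 ^ p * (((L : ℝ≥0∞) * N) ^ (p - 1) * ∑' x, u x ^ p
          + ((L : ℝ≥0∞) ^ p * N) * ∑' x, u x ^ p) := by gcongr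
    _ = _ := by ring

end Pool.Agent.R216.CVP
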