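import Mathlib
import Pool.Agent.R216.CVP.Est

set_option autoImplicit false

/-! The gap between the two convolution norms. -/

namespace Pool.Agent.R216.CVP

open scoped ENNReal
open Finset

variable {G : Type} [Group G]

open Classical in
noncomputable def ind (V : Finset G) (x : G) : ℝ≥0∞ := if x ∈ V then 1 else 0

open Classical in
/-- upper bound `Q` for one family, lower bound `M Q` for the inverse family -/
def Gap (G : Type) [Group G] (p : ℝ) (M : ℝ≥0∞) : Prop :=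
  ∃ (I : Finset (ℕ × ℕ)) (γ : ℕ × ℕ → G) (Q : ℝ≥0∞) (V : Finset G),
    Q ≠ 0 ∧ Q ≠ ∞ ∧ V.Nonempty ∧
    (∀ u : G → ℝ≥0∞, ∑' x, (∑ j ∈ I, u ((γ j)⁻¹ * x)) ^ p ≤ Q * ∑' x, u x ^ p) ∧
    M * Q * V.card ≤ ∑' x, (∑ j ∈ I, ind V (γ j * x)) ^ p

open Classical in
lemma LB1 (φ : F2 →* G) (hφ : Function.Injective φ) (L N : ℕ) {p : ℝ} (hp : 0 < p) :
    (L : ℝ≥0∞) * N * (L : ℝ≥0∞) ^ p ≤ ∑' x, (∑ j ∈ range L ×ˢ range N,
      ind ((range (2 * L)).image fun j => φ (A ^ j)) (φ (A ^ j.1 * s j.2) * x)) ^ p := by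
  set V : Finset G := (range (2 * L)).image fun j => φ (A ^ j)
  let P : Finset G := (range L ×ˢ range N).image fun j => φ ((s j.2)⁻¹ * A ^ j.1)
  have hinj : Set.InjOn (fun j : ℕ × ℕ => φ ((s j.2)⁻¹ * A ^ j.1))
      (range L ×ˢ range N : Finset (ℕ × ℕ)) := by
    intro j _ j' _ h
    have h1 := hφ h
    have h2 : (s j.2)⁻¹ * A ^ (j.1 : ℤ) = (s j'.2)⁻¹ * A ^ (j'.1 : ℤ) := by
      rw [zpow_natCast, zpow_natCast]; exact h1
    obtain ⟨h3, h4⟩ := low_inj h2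
    exact Prod.ext (by exact_mod_cast h4) h3
  have hcard : (P.card : ℝ≥0∞) = (L : ℝ≥0∞) * N := by
    rw [Finset.card_image_of_injOn hinj]; simp [Finset.card_product]
  have hval : ∀ x ∈ P, (L : ℝ≥0∞) ≤ ∑ j ∈ range L ×ˢ range N,
      ind V (φ (A ^ j.1 * s j.2) * x) := by
    intro x hx
    obtain ⟨⟨m, i⟩, hmi, rfl⟩ := Finset.mem_image.1 hx
    rw [Finset.mem_product, Finset.mem_range, Finset.mem_range] at hmi
    simp only at hmi
    rw [Finset.sum_product]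
    calc (L : ℝ≥0∞) = ∑ _k ∈ range L, 1 := by simp
      _ ≤ _ := by
        refine Finset.sum_le_sum fun k hk => ?_
        have hk' := Finset.mem_range.1 hk
        refine le_trans ?_ (Finset.single_le_sum (f := fun y => ind V
          (φ (A ^ k * s y) * φ ((s i)⁻¹ * A ^ m))) (fun _ _ => zero_le)
          (Finset.mem_range.2 hmi.2))
        simp only [ind]
        rw [if_pos]
        refine Finset.mem_image.2 ⟨k + m, Finset.mem_range.2 (by omega), ?_⟩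
        rw [← map_mul]
        congr 1
        rw [pow_add]; group
  calc (L : ℝ≥0∞) * N * (L : ℝ≥0∞) ^ p = ∑ x ∈ P, (L : ℝ≥0∞) ^ p := by
        rw [Finset.sum_const, nsmul_eq_mul, hcard]
    _ ≤ ∑ x ∈ P, (∑ j ∈ range L ×ˢ range N, ind V (φ (A ^ j.1 * s j.2) * x)) ^ p :=
        Finset.sum_le_sum fun x hx => ENNReal.rpow_le_rpow (hval x hx) hp.le
    _ ≤ _ := ENNReal.sum_le_tsum P

open Classical in
lemma LB2 (φ : F2 →* G) (hφ : Function.Injective φ) (L N : ℕ) {p : ℝ} (hp : 0 < p) :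
    (L : ℝ≥0∞) * ((L : ℝ≥0∞) * N) ^ p ≤ ∑' x, (∑ j ∈ range L ×ˢ range N,
      ind ((range (2 * L) ×ˢ range N).image fun j => φ ((s j.2)⁻¹ * A ^ j.1))
        ((φ (A ^ j.1 * s j.2))⁻¹ * x)) ^ p := by
  set V : Finset G := (range (2 * L) ×ˢ range N).image fun j => φ ((s j.2)⁻¹ * A ^ j.1)
  let P : Finset G := (range L).image fun m => φ (A ^ (L + m))
  have hinj : Set.InjOn (fun m : ℕ => φ (A ^ (L + m))) (range L : Finset ℕ) := by
    intro j _ j' _ h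
    have h1 := hφ h
    have h2 : A ^ ((L + j : ℕ) : ℤ) = A ^ ((L + j' : ℕ) : ℤ) := by
      rw [zpow_natCast, zpow_natCast]; exact h1
    have := zpow_inj h2
    omega
  have hcard : (P.card : ℝ≥0∞) = (L : ℝ≥0∞) := by
    rw [Finset.card_image_of_injOn hinj]; simp
  have hval : ∀ x ∈ P, (L : ℝ≥0∞) * N ≤ ∑ j ∈ range L ×ˢ range N,
      ind V ((φ (A ^ j.1 * s j.2))⁻¹ * x) := by
    intro x hx
    obtain ⟨m, hm, rfl⟩ := Finset.mem_image.1 hx
    rw [Finset.mem_range] at hm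
    calc (L : ℝ≥0∞) * N = ∑ _j ∈ range L ×ˢ range N, 1 := by simp [Finset.card_product]
      _ ≤ _ := by
        refine Finset.sum_le_sum fun j hj => ?_
        rw [Finset.mem_product, Finset.mem_range, Finset.mem_range] at hj
        simp only [ind]
        rw [if_pos]
        refine Finset.mem_image.2 ⟨(L + m - j.1, j.2), ?_, ?_⟩
        · rw [Finset.mem_product, Finset.mem_range, Finset.mem_range]
          exact ⟨by simp only; omega, hj.2⟩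
        · rw [← map_inv, ← map_mul]
          congr 1
          have h1 : A ^ (L + m) = A ^ j.1 * A ^ (L + m - j.1) := by
            rw [← pow_add]; congr 1; omega
          rw [h1]; simp only; group
  calc (L : ℝ≥0∞) * ((L : ℝ≥0∞) * N) ^ p = ∑ x ∈ P, ((L : ℝ≥0∞) * N) ^ p := by
        rw [Finset.sum_const, nsmul_eq_mul, hcard]
    _ ≤ ∑ x ∈ P, (∑ j ∈ range L ×ˢ range N, ind V ((φ (A ^ j.1 * s j.2))⁻¹ * x)) ^ p :=
        Finset.sum_le_sum fun x hx => ENNReal.rpow_le_rpow (hval x hx) hp.le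
    _ ≤ _ := ENNReal.sum_le_tsum P

lemma exists_nat_rpow {q : ℝ} (hq : 0 < q) (B : ℝ≥0∞) (hB : B ≠ ∞) :
    ∃ N : ℕ, 0 < N ∧ B ≤ (N : ℝ≥0∞) ^ q := by
  have hB' : B ^ (1 / q) ≠ ∞ := ENNReal.rpow_ne_top_of_nonneg (by positivity) hB
  obtain ⟨N, hN⟩ := ENNReal.exists_nat_gt hB'
  refine ⟨N + 1, Nat.succ_pos _, ?_⟩
  have h1 : B ^ (1 / q) ≤ ((N + 1 : ℕ) : ℝ≥0∞) :=
    hN.le.trans (by exact_mod_cast Nat.le_succ N)
  calc B = (B ^ (1 / q)) ^ q := by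
        rw [← ENNReal.rpow_mul, one_div, inv_mul_cancel₀ hq.ne', ENNReal.rpow_one]
    _ ≤ _ := ENNReal.rpow_le_rpow h1 hq.le

lemma nat_rpow_succ (L : ℕ) (hL : 0 < L) (p : ℝ) :
    (L : ℝ≥0∞) ^ p = (L : ℝ≥0∞) ^ (p - 1) * L := by
  have hL0 : (L : ℝ≥0∞) ≠ 0 := by positivity
  conv_lhs => rw [show p = (p - 1) + 1 by ring]
  rw [ENNReal.rpow_add _ _ hL0 (by simp), ENNReal.rpow_one]

lemma gap_lt (φ : F2 →* G) (hφ : Function.Injective φ) {p : ℝ} (hp : 1 < p) (hp2 : p < 2)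
    (M : ℝ≥0∞) (hM : M ≠ ∞) : Gap G p M := by
  classical
  have h2p : (2 : ℝ≥0∞) ^ p ≠ ∞ := ENNReal.rpow_ne_top_of_nonneg (by linarith) (by simp)
  obtain ⟨L, hL, hLM⟩ := exists_nat_rpow (show 0 < p - 1 by linarith) (M * (2 ^ p * 4))
    (ENNReal.mul_ne_top hM (ENNReal.mul_ne_top h2p (by simp)))
  obtain ⟨N, hN, hNL⟩ := exists_nat_rpow (show 0 < 2 - p by linarith) ((L : ℝ≥0∞) ^ (p - 1))
    (ENNReal.rpow_ne_top_of_nonneg (by linarith) (by simp))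
  have hL0 : (L : ℝ≥0∞) ≠ 0 := by positivity
  have hN0 : (N : ℝ≥0∞) ≠ 0 := by positivity
  have hbig : (L : ℝ≥0∞) ^ p * (N : ℝ≥0∞) ^ (p - 1) ≤ (L : ℝ≥0∞) * N := by
    rw [nat_rpow_succ L hL]
    calc (L : ℝ≥0∞) ^ (p - 1) * L * (N : ℝ≥0∞) ^ (p - 1)
        ≤ (N : ℝ≥0∞) ^ (2 - p) * L * (N : ℝ≥0∞) ^ (p - 1) := by gcongr
      _ = L * ((N : ℝ≥0∞) ^ (2 - p) * (N : ℝ≥0∞) ^ (p - 1)) := by ring
      _ = L * N := by
        rw [← ENNReal.rpow_add _ _ hN0 (by simp), show 2 - p + (p - 1) = 1 by ring,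
          ENNReal.rpow_one]
  refine ⟨range L ×ˢ range N, fun j => φ (A ^ j.1 * s j.2),
    2 ^ p * ((L : ℝ≥0∞) * N + (L : ℝ≥0∞) ^ p * (N : ℝ≥0∞) ^ (p - 1)),
    (range (2 * L)).image fun j => φ (A ^ j), ?_, ?_, ?_, ?_, ?_⟩
  · have : (2 : ℝ≥0∞) ^ p ≠ 0 := (ENNReal.rpow_pos (by simp) (by simp)).ne'
    positivity
  · refine ENNReal.mul_ne_top h2p (ENNReal.add_ne_top.2 ⟨ENNReal.mul_ne_top (by simp) (by simp),
      ENNReal.mul_ne_top ?_ ?_⟩)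
    · exact ENNReal.rpow_ne_top_of_nonneg (by linarith) (by simp)
    · exact ENNReal.rpow_ne_top_of_nonneg (by linarith) (by simp)
  · exact ⟨_, Finset.mem_image_of_mem _ (Finset.mem_range.2 (show 0 < 2 * L by omega))⟩
  · exact UB1 φ hφ L N hp
  · refine le_trans ?_ (LB1 φ hφ L N (by linarith))
    have hc : ((((range (2 * L)).image fun j => φ (A ^ j)).card : ℕ) : ℝ≥0∞) ≤ 2 * L := by
      have := Finset.card_image_le (s := range (2 * L)) (f := fun j => φ (A ^ j))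
      rw [Finset.card_range] at this
      exact_mod_cast this
    calc M * (2 ^ p * ((L : ℝ≥0∞) * N + (L : ℝ≥0∞) ^ p * (N : ℝ≥0∞) ^ (p - 1)))
          * ((((range (2 * L)).image fun j => φ (A ^ j)).card : ℕ) : ℝ≥0∞)
        ≤ M * (2 ^ p * ((L : ℝ≥0∞) * N + (L : ℝ≥0∞) * N)) * (2 * L) := by gcongr
      _ = (M * (2 ^ p * 4)) * (L * L * N) := by ring
      _ ≤ (L : ℝ≥0∞) ^ (p - 1) * (L * L * N) := by gcongr
      _ = (L : ℝ≥0∞) * N * (L : ℝ≥0∞) ^ p := by rw [nat_rpow_succ L hL p]; ring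

lemma gap_gt (φ : F2 →* G) (hφ : Function.Injective φ) {p : ℝ} (hp2 : 2 < p)
    (M : ℝ≥0∞) (hM : M ≠ ∞) : Gap G p M := by
  classical
  have h2p : (2 : ℝ≥0∞) ^ p ≠ ∞ := ENNReal.rpow_ne_top_of_nonneg (by linarith) (by simp)
  obtain ⟨L, hL, hLM⟩ := exists_nat_rpow (show (0 : ℝ) < 1 by norm_num) (M * (2 ^ p * 4))
    (ENNReal.mul_ne_top hM (ENNReal.mul_ne_top h2p (by simp)))
  rw [ENNReal.rpow_one] at hLM
  obtain ⟨N, hN, hNL⟩ := exists_nat_rpow (show 0 < p - 2 by linarith) (L : ℝ≥0∞) (by simp)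
  have hL0 : (L : ℝ≥0∞) ≠ 0 := by positivity
  have hN0 : (N : ℝ≥0∞) ≠ 0 := by positivity
  have hbig : (L : ℝ≥0∞) ^ p * N ≤ ((L : ℝ≥0∞) * N) ^ (p - 1) := by
    rw [nat_rpow_succ L hL, ENNReal.mul_rpow_of_nonneg _ _ (by linarith)]
    calc (L : ℝ≥0∞) ^ (p - 1) * L * N
        ≤ (L : ℝ≥0∞) ^ (p - 1) * (N : ℝ≥0∞) ^ (p - 2) * N := by gcongr
      _ = (L : ℝ≥0∞) ^ (p - 1) * ((N : ℝ≥0∞) ^ (p - 1 - 1) * N) := by
        rw [show p - 1 - 1 = p - 2 by ring]; ring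
      _ = _ := by rw [← nat_rpow_succ N hN (p - 1)]
  refine ⟨range L ×ˢ range N, fun j => (φ (A ^ j.1 * s j.2))⁻¹,
    2 ^ p * (((L : ℝ≥0∞) * N) ^ (p - 1) + (L : ℝ≥0∞) ^ p * N),
    (range (2 * L) ×ˢ range N).image fun j => φ ((s j.2)⁻¹ * A ^ j.1), ?_, ?_, ?_, ?_, ?_⟩
  · have h1 : (2 : ℝ≥0∞) ^ p ≠ 0 := (ENNReal.rpow_pos (by simp) (by simp)).ne'
    have h2 : (L : ℝ≥0∞) ^ p ≠ 0 := (ENNReal.rpow_pos (by positivity) (by simp)).ne'
    have h3 : (L : ℝ≥0∞) ^ p * N ≠ 0 := mul_ne_zero h2 hN0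
    refine mul_ne_zero h1 ?_
    intro h
    exact h3 (add_eq_zero.1 h).2
  · refine ENNReal.mul_ne_top h2p (ENNReal.add_ne_top.2 ⟨?_, ENNReal.mul_ne_top ?_ (by simp)⟩)
    · exact ENNReal.rpow_ne_top_of_nonneg (by linarith) (ENNReal.mul_ne_top (by simp) (by simp))
    · exact ENNReal.rpow_ne_top_of_nonneg (by linarith) (by simp)
  · exact ⟨_, Finset.mem_image_of_mem _ (Finset.mk_mem_product
      (Finset.mem_range.2 (show 0 < 2 * L by omega)) (Finset.mem_range.2 hN))⟩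
  · intro u
    simp only [inv_inv]
    exact UB2 φ hφ L N (by linarith) u
  · refine le_trans ?_ (LB2 φ hφ L N (by linarith))
    have hc : ((((range (2 * L) ×ˢ range N).image fun j => φ ((s j.2)⁻¹ * A ^ j.1)).card : ℕ) :
        ℝ≥0∞) ≤ 2 * L * N := by
      have := Finset.card_image_le (s := range (2 * L) ×ˢ range N)
        (f := fun j : ℕ × ℕ => φ ((s j.2)⁻¹ * A ^ j.1))
      rw [Finset.card_product, Finset.card_range, Finset.card_range] at this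
      exact_mod_cast this
    calc M * (2 ^ p * (((L : ℝ≥0∞) * N) ^ (p - 1) + (L : ℝ≥0∞) ^ p * N))
          * ((((range (2 * L) ×ˢ range N).image
            fun j => φ ((s j.2)⁻¹ * A ^ j.1)).card : ℕ) : ℝ≥0∞)
        ≤ M * (2 ^ p * (((L : ℝ≥0∞) * N) ^ (p - 1) + ((L : ℝ≥0∞) * N) ^ (p - 1)))
          * (2 * L * N) := by gcongr
      _ = (M * (2 ^ p * 4)) * (((L : ℝ≥0∞) * N) ^ (p - 1) * (L * N)) := by ring
      _ ≤ (L : ℝ≥0∞) * (((L : ℝ≥0∞) * N) ^ (p - 1) * (L * N)) := by gcongr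
      _ = (L : ℝ≥0∞) * ((L : ℝ≥0∞) * N) ^ p := by
        congr 1
        have := nat_rpow_succ (L * N) (Nat.mul_pos hL hN) p
        push_cast at this
        exact this.symm

end Pool.Agent.R216.CVP
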