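import Mathlib
import Pool.Agent.R216.CVP.Gap

set_option autoImplicit false

/-! Gluing the finite pieces into one function. -/

namespace Pool.Agent.R216.CVP

open scoped ENNReal
open Finset MeasureTheory

lemma jensen {p : ℝ} (hp : 1 < p) (w u : ℕ → ℝ≥0∞) :
    (∑' n, w n * u n) ^ p ≤ (∑' n, w n) ^ (p - 1) * ∑' n, w n * u n ^ p := by
  have hpq : p.HolderConjugate (p / (p - 1)) := .conjExponent hp
  have hp0 : 0 < p := by linarith
  have hq : 0 < p / (p - 1) := by apply div_pos <;> linarith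
  have h := ENNReal.lintegral_mul_le_Lp_mul_Lq (Measure.count : Measure ℕ) hpq
    (f := fun n => w n ^ (1 / p) * u n) (g := fun n => w n ^ (1 / (p / (p - 1))))
    (measurable_from_nat.aemeasurable) (measurable_from_nat.aemeasurable)
  simp only [lintegral_count, Pi.mul_apply] at h
  have e1 : ∀ n, w n ^ (1 / p) * u n * w n ^ (1 / (p / (p - 1))) = w n * u n := by
    intro n
    rw [mul_assoc, mul_comm (u n), ← mul_assoc, ← ENNReal.rpow_add_of_nonneg _ _ (by positivity)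
      (by positivity)]
    congr 1
    have : 1 / p + 1 / (p / (p - 1)) = 1 := by
      have := hpq.inv_add_inv_eq_one
      simpa [one_div] using this
    rw [this, ENNReal.rpow_one]
  have e2 : ∀ n, (w n ^ (1 / p) * u n) ^ p = w n * u n ^ p := by
    intro n
    rw [ENNReal.mul_rpow_of_nonneg _ _ hp0.le, ← ENNReal.rpow_mul, one_div,
      inv_mul_cancel₀ hp0.ne', ENNReal.rpow_one]
  have e3 : ∀ n, (w n ^ (1 / (p / (p - 1)))) ^ (p / (p - 1)) = w n := by
    intro n
    rw [← ENNReal.rpow_mul, one_div, inv_mul_cancel₀ hq.ne', ENNReal.rpow_one]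
  simp only [e1, e2, e3] at h
  calc (∑' n, w n * u n) ^ p
      ≤ ((∑' n, w n * u n ^ p) ^ (1 / p) * (∑' n, w n) ^ (1 / (p / (p - 1)))) ^ p :=
        ENNReal.rpow_le_rpow h hp0.le
    _ = (∑' n, w n) ^ (p - 1) * ∑' n, w n * u n ^ p := by
      rw [ENNReal.mul_rpow_of_nonneg _ _ hp0.le, ← ENNReal.rpow_mul, ← ENNReal.rpow_mul, one_div,
        inv_mul_cancel₀ hp0.ne', ENNReal.rpow_one, mul_comm]
      congr 2
      have : p - 1 ≠ 0 := by linarith
      field_simp

lemma real_of_enn {G : Type} (r : G → ℝ) (hr : ∀ x, 0 ≤ r x) (B : ℝ) (hB : 0 ≤ B)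
    (h : ∑' x, ENNReal.ofReal (r x) ≤ ENNReal.ofReal B) :
    Summable r ∧ ∑' x, r x ≤ B := by
  have hne : ∑' x, ENNReal.ofReal (r x) ≠ ∞ := ne_top_of_le_ne_top ENNReal.ofReal_ne_top h
  have hs : Summable r := by
    have := ENNReal.summable_toReal hne
    refine this.congr fun x => ?_
    rw [ENNReal.toReal_ofReal (hr x)]
  refine ⟨hs, ?_⟩
  rw [← ENNReal.ofReal_tsum_of_nonneg hr hs] at h
  exact (ENNReal.ofReal_le_ofReal_iff hB).1 h

variable {G : Type} [Group G]

open Classical in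
theorem glue {p : ℝ} (hp : 1 < p) (hgap : ∀ M : ℝ≥0∞, M ≠ ∞ → Gap G p M) :
    ∃ f : G → ℂ,
      (∃ C : ℝ, ∀ ξ : G →₀ ℂ,
        Summable (fun g : G => ‖∑ k ∈ ξ.support, f (g * k⁻¹) * ξ k‖ ^ p) ∧
        ∑' g : G, ‖∑ k ∈ ξ.support, f (g * k⁻¹) * ξ k‖ ^ p
          ≤ C * ∑ k ∈ ξ.support, ‖ξ k‖ ^ p) ∧
      ¬ (∃ C : ℝ, ∀ ξ : G →₀ ℂ,
        Summable (fun g : G =>
          ‖∑ k ∈ ξ.support, starRingEnd ℂ (f ((g * k⁻¹)⁻¹)) * ξ k‖ ^ p) ∧
        ∑' g : G, ‖∑ k ∈ ξ.support, starRingEnd ℂ (f ((g * k⁻¹)⁻¹)) * ξ k‖ ^ p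
          ≤ C * ∑ k ∈ ξ.support, ‖ξ k‖ ^ p) := by
  have hp0 : 0 < p := by linarith
  have h2n : ∀ n : ℕ, ((2 : ℝ≥0∞) ^ n) ^ p ≠ ∞ := fun n =>
    ENNReal.rpow_ne_top_of_nonneg hp0.le (ENNReal.pow_ne_top (by simp))
  have hg : ∀ n : ℕ, Gap G p (((2 : ℝ≥0∞) ^ n) ^ p * n) := fun n =>
    hgap _ (ENNReal.mul_ne_top (h2n n) (by simp))
  choose I γ Q V hQ0 hQt hV hU hL using hg
  let w : ℕ → ℝ≥0∞ := fun n => (2⁻¹ : ℝ≥0∞) ^ n
  have hw : ∑' n, w n = 2 := by
    simp only [w]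
    rw [ENNReal.tsum_geometric]
    rw [ENNReal.one_sub_inv_two, inv_inv]
  let D : ℕ → ℝ≥0∞ := fun n => Q n ^ (-(1 / p))
  have hD : ∀ n, D n ^ p * Q n = 1 := by
    intro n
    simp only [D]
    rw [← ENNReal.rpow_mul, show -(1 / p) * p = -1 by field_simp, ENNReal.rpow_neg_one,
      ENNReal.inv_mul_cancel (hQ0 n) (hQt n)]
  -- the kernel
  let F : G → ℝ≥0∞ := fun x => ∑' n, w n * (D n * ∑ j ∈ I n, if γ n j = x then 1 else 0)
  -- convolution with a finitely supported function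
  have conv : ∀ (u : G → ℝ≥0∞) (S : Finset G), (∀ k, k ∉ S → u k = 0) → ∀ g,
      ∑ k ∈ S, F (g * k⁻¹) * u k = ∑' n, w n * (D n * ∑ j ∈ I n, u ((γ n j)⁻¹ * g)) := by
    intro u S hu g
    simp only [F]
    have h1 : ∀ k, (∑' n, w n * (D n * ∑ j ∈ I n, if γ n j = g * k⁻¹ then 1 else 0)) * u k
        = ∑' n, w n * (D n * ∑ j ∈ I n, if γ n j = g * k⁻¹ then u k else 0) := by
      intro k
      rw [← ENNReal.tsum_mul_right]
      refine tsum_congr fun n => ?_
      rw [mul_assoc, mul_assoc, Finset.sum_mul]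
      simp only [ite_mul, one_mul, zero_mul]
    simp_rw [h1]
    rw [← tsum_sum]
    refine tsum_congr fun n => ?_
    rw [← Finset.mul_sum, ← Finset.mul_sum, Finset.sum_comm]
    congr 2
    refine Finset.sum_congr rfl fun j _ => ?_
    have h2 : ∀ k, (if γ n j = g * k⁻¹ then u k else 0) = if (γ n j)⁻¹ * g = k then u k else 0 := by
      intro k
      have : γ n j = g * k⁻¹ ↔ (γ n j)⁻¹ * g = k := by
        constructor
        · intro h; rw [h]; group
        · intro h; rw [← h]; group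
      simp only [this]
    simp_rw [h2]
    rw [Finset.sum_ite_eq]
    split_ifs with h
    · rfl
    · exact (hu _ h).symm
  have upper : ∀ (u : G → ℝ≥0∞),
      ∑' g, (∑' n, w n * (D n * ∑ j ∈ I n, u ((γ n j)⁻¹ * g))) ^ p
        ≤ 2 ^ p * ∑' x, u x ^ p := by
    intro u
    calc ∑' g, (∑' n, w n * (D n * ∑ j ∈ I n, u ((γ n j)⁻¹ * g))) ^ p
        ≤ ∑' g, (2 : ℝ≥0∞) ^ (p - 1) *
            ∑' n, w n * (D n * ∑ j ∈ I n, u ((γ n j)⁻¹ * g)) ^ p := by
          refine ENNReal.tsum_le_tsum fun g => ?_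
          have := jensen hp w (fun n => D n * ∑ j ∈ I n, u ((γ n j)⁻¹ * g))
          rwa [hw] at this
      _ = (2 : ℝ≥0∞) ^ (p - 1) * ∑' n, w n *
            (D n ^ p * ∑' g, (∑ j ∈ I n, u ((γ n j)⁻¹ * g)) ^ p) := by
          rw [ENNReal.tsum_mul_left, ENNReal.tsum_comm]
          congr 1
          refine tsum_congr fun n => ?_
          rw [ENNReal.tsum_mul_left]
          congr 1
          rw [← ENNReal.tsum_mul_left]
          refine tsum_congr fun g => ?_
          rw [ENNReal.mul_rpow_of_nonneg _ _ hp0.le]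
      _ ≤ (2 : ℝ≥0∞) ^ (p - 1) * ∑' n, w n * (D n ^ p * (Q n * ∑' x, u x ^ p)) := by
          gcongr with n
          exact hU n u
      _ = (2 : ℝ≥0∞) ^ (p - 1) * (2 * ∑' x, u x ^ p) := by
          congr 1
          have : ∀ n, w n * (D n ^ p * (Q n * ∑' x, u x ^ p)) = w n * ∑' x, u x ^ p := by
            intro n
            rw [← mul_assoc (D n ^ p), hD, one_mul]
          simp_rw [this]
          rw [ENNReal.tsum_mul_right, hw]
      _ = 2 ^ p * ∑' x, u x ^ p := by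
          have := nat_rpow_succ 2 (by norm_num) p
          push_cast at this
          rw [this]; ring
  have Ffin : ∀ x, F x ≠ ∞ := by
    intro x
    have h1 := upper (fun k => if k = 1 then 1 else 0)
    have h2 : ∑' x : G, (if x = 1 then (1 : ℝ≥0∞) else 0) ^ p = 1 := by
      rw [tsum_eq_single 1]
      · simp
      · intro b hb; simp [hb, hp0]
    rw [h2, mul_one] at h1
    have h3 : F x = ∑' n, w n * (D n * ∑ j ∈ I n, if (γ n j)⁻¹ * x = 1 then (1 : ℝ≥0∞) else 0) := by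
      have := conv (fun k => if k = 1 then 1 else 0) {1} (by intro k hk; simp at hk; simp [hk]) x
      simpa using this
    have h4 : F x ^ p ≤ 2 ^ p := by
      refine le_trans ?_ h1
      rw [h3]
      exact ENNReal.le_tsum x
    intro h5
    rw [h5, ENNReal.top_rpow_of_pos hp0] at h4
    exact (ENNReal.rpow_ne_top_of_nonneg hp0.le (by simp)) (top_le_iff.1 h4)
  let f : G → ℂ := fun x => ((F x).toReal : ℂ)
  have hf : ∀ x, ‖f x‖ₑ = F x := by
    intro x
    simp only [f]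
    rw [← ofReal_norm, Complex.norm_real, Real.norm_of_nonneg ENNReal.toReal_nonneg,
      ENNReal.ofReal_toReal (Ffin x)]
  have hpow : ∀ z : ℂ, ENNReal.ofReal (‖z‖ ^ p) = ‖z‖ₑ ^ p := by
    intro z
    rw [← ENNReal.ofReal_rpow_of_nonneg (norm_nonneg _) hp0.le, ofReal_norm]
  have hsupp : ∀ ξ : G →₀ ℂ, ∑' x, ‖ξ x‖ₑ ^ p = ENNReal.ofReal (∑ k ∈ ξ.support, ‖ξ k‖ ^ p) := by
    intro ξ
    rw [ENNReal.ofReal_sum_of_nonneg (fun _ _ => by positivity)]
    simp_rw [hpow]
    rw [tsum_eq_sum]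
    intro b hb
    rw [Finsupp.notMem_support_iff.1 hb]
    simp [hp0]
  refine ⟨f, ⟨2 ^ p, fun ξ => ?_⟩, ?_⟩
  · refine real_of_enn _ (fun _ => by positivity) _ (by positivity) ?_
    simp_rw [hpow]
    calc ∑' g, ‖∑ k ∈ ξ.support, f (g * k⁻¹) * ξ k‖ₑ ^ p
        ≤ ∑' g, (∑' n, w n * (D n * ∑ j ∈ I n, ‖ξ ((γ n j)⁻¹ * g)‖ₑ)) ^ p := by
          refine ENNReal.tsum_le_tsum fun g => ENNReal.rpow_le_rpow ?_ hp0.le
          rw [← conv (fun k => ‖ξ k‖ₑ) ξ.support
            (fun k hk => by simp [Finsupp.notMem_support_iff.1 hk]) g]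
          refine (enorm_sum_le _ _).trans ?_
          refine Finset.sum_le_sum fun k _ => ?_
          rw [enorm_mul, hf]
      _ ≤ 2 ^ p * ∑' x, ‖ξ x‖ₑ ^ p := upper _
      _ = ENNReal.ofReal (2 ^ p * ∑ k ∈ ξ.support, ‖ξ k‖ ^ p) := by
          rw [hsupp, ENNReal.ofReal_mul (by positivity),
            ← ENNReal.ofReal_rpow_of_nonneg (by norm_num) hp0.le]
          norm_num
  · rintro ⟨C, hC⟩
    obtain ⟨n, hn⟩ := ENNReal.exists_nat_gt (ENNReal.ofReal_ne_top (r := C))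
    let ξ : G →₀ ℂ := Finsupp.indicator (V n) (fun _ _ => 1)
    have hξ : ∀ k, ξ k = if k ∈ V n then 1 else 0 := by
      intro k
      simp [ξ, Finsupp.indicator_apply]
    have hξs : ξ.support = V n := by
      ext k
      rw [Finsupp.mem_support_iff, hξ]
      split_ifs with h <;> simp [h]
    obtain ⟨hs, hle⟩ := hC ξ
    rw [hξs] at hs hle
    have hcard : ∑ k ∈ V n, ‖ξ k‖ ^ p = (V n).card := by
      rw [Finset.sum_congr rfl (g := fun _ => (1 : ℝ))]
      · simp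
      · intro k hk
        rw [hξ, if_pos hk]; simp
    rw [hcard] at hle
    have hle2 := ENNReal.ofReal_le_ofReal hle
    rw [ENNReal.ofReal_tsum_of_nonneg (fun _ => by positivity) hs] at hle2
    simp_rw [hpow] at hle2
    have hlow : ∀ g, w n * (D n * ∑ j ∈ I n, ind (V n) (γ n j * g))
        ≤ ‖∑ k ∈ V n, (starRingEnd ℂ) (f ((g * k⁻¹)⁻¹)) * ξ k‖ₑ := by
      intro g
      have e1 : ∑ k ∈ V n, (starRingEnd ℂ) (f ((g * k⁻¹)⁻¹)) * ξ k
          = ((∑ k ∈ V n, (F (k * g⁻¹)).toReal : ℝ) : ℂ) := by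
        push_cast
        refine Finset.sum_congr rfl fun k hk => ?_
        rw [hξ, if_pos hk, mul_one]
        simp only [f]
        rw [Complex.conj_ofReal, mul_inv_rev, inv_inv]
      rw [e1, ← ofReal_norm, Complex.norm_real, Real.norm_of_nonneg
        (Finset.sum_nonneg fun _ _ => ENNReal.toReal_nonneg),
        ENNReal.ofReal_sum_of_nonneg (fun _ _ => ENNReal.toReal_nonneg)]
      simp_rw [ENNReal.ofReal_toReal (Ffin _)]
      have e2 : ∀ k, w n * (D n * ∑ j ∈ I n, if γ n j = k * g⁻¹ then 1 else 0) ≤ F (k * g⁻¹) :=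
        fun k => ENNReal.le_tsum (f := fun m => w m * (D m * ∑ j ∈ I m,
          if γ m j = k * g⁻¹ then 1 else 0)) n
      refine le_trans ?_ (Finset.sum_le_sum fun k _ => e2 k)
      rw [← Finset.mul_sum, ← Finset.mul_sum, Finset.sum_comm]
      refine mul_le_mul' le_rfl (mul_le_mul' le_rfl (Finset.sum_le_sum fun j _ => ?_))
      simp only [ind]
      have e3 : ∀ k, (if γ n j = k * g⁻¹ then (1 : ℝ≥0∞) else 0)
          = if γ n j * g = k then 1 else 0 := by
        intro k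
        have : γ n j = k * g⁻¹ ↔ γ n j * g = k := by
          constructor
          · intro h; rw [h]; group
          · intro h; rw [← h]; group
        simp only [this]
      simp_rw [e3]
      rw [Finset.sum_ite_eq]
    have h5 : (w n * D n) ^ p * ((((2 : ℝ≥0∞) ^ n) ^ p * n) * Q n * (V n).card)
        ≤ ENNReal.ofReal (C * (V n).card) := by
      refine le_trans ?_ hle2
      calc (w n * D n) ^ p * ((((2 : ℝ≥0∞) ^ n) ^ p * n) * Q n * (V n).card)
          ≤ (w n * D n) ^ p * ∑' x, (∑ j ∈ I n, ind (V n) (γ n j * x)) ^ p := by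
            gcongr
            exact hL n
        _ = ∑' x, (w n * (D n * ∑ j ∈ I n, ind (V n) (γ n j * x))) ^ p := by
            rw [← ENNReal.tsum_mul_left]
            refine tsum_congr fun x => ?_
            rw [← mul_assoc, ENNReal.mul_rpow_of_nonneg (w n * D n) _ hp0.le]
        _ ≤ _ := ENNReal.tsum_le_tsum fun g => ENNReal.rpow_le_rpow (hlow g) hp0.le
    have h6 : (w n * D n) ^ p * ((((2 : ℝ≥0∞) ^ n) ^ p * n) * Q n * (V n).card)
        = n * (V n).card := by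
      have e1 : w n ^ p * ((2 : ℝ≥0∞) ^ n) ^ p = 1 := by
        rw [← ENNReal.mul_rpow_of_nonneg _ _ hp0.le]
        simp only [w]
        rw [← mul_pow, ENNReal.inv_mul_cancel (by simp) (by simp), one_pow, ENNReal.one_rpow]
      rw [ENNReal.mul_rpow_of_nonneg _ _ hp0.le]
      calc w n ^ p * D n ^ p * (((2 : ℝ≥0∞) ^ n) ^ p * n * Q n * (V n).card)
          = (w n ^ p * ((2 : ℝ≥0∞) ^ n) ^ p) * (D n ^ p * Q n) * (n * (V n).card) := by ring
        _ = _ := by rw [e1, hD, one_mul, one_mul]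
    rw [h6] at h5
    have hCn : ENNReal.ofReal (C * (V n).card) = ENNReal.ofReal C * (V n).card := by
      rw [ENNReal.ofReal_mul' (by positivity), ENNReal.ofReal_natCast]
    rw [hCn] at h5
    have hc0 : ((V n).card : ℝ≥0∞) ≠ 0 := by
      simpa using (hV n).ne_empty
    have h7 := (ENNReal.mul_le_mul_iff_left hc0 (by simp)).1 h5
    exact absurd hn (not_lt.2 h7)

end Pool.Agent.R216.CVP
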